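import Pool.Agent.MP_3ee8cb_gt.CZE.EndN

/-! A distance preserving equivariant map is an isometry of class `C¹`. -/

namespace Pool.Agent.MP_3ee8cb_gt.DN

variable [Dim]

open Set Filter Topology
open CR (Met UT MinP Riem RP dd)
open scoped RealInnerProductSpace

noncomputable section

namespace Mys

theorem ray {u v : V} {t : ℝ} (ht : 0 ≤ t) (hu : ‖u‖ = t) (hv : ‖v‖ = 1)
    (h : ‖u - v‖ ≤ |t - 1|) : u = t • v := by
  have h1 := pow_le_pow_left₀ (norm_nonneg _) h 2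
  rw [sq_abs, norm_sub_sq_real, hu, hv] at h1
  have h2 : ‖u - t • v‖ ^ 2 ≤ 0 := by
    rw [norm_sub_sq_real, real_inner_smul_right, norm_smul, hu, hv, Real.norm_of_nonneg ht]
    nlinarith
  exact sub_eq_zero.1 (norm_eq_zero.1 (pow_eq_zero_iff two_ne_zero |>.1
    (le_antisymm h2 (sq_nonneg _))))

variable {g h : Met dm} {Γ Λ : Type} [Group Γ] [Group Λ] [MulAction Γ V] [MulAction Λ V]
  {Φ : ℝ → UT g → UT g} {Ψ : ℝ → UT h → UT h} {C C' : TB.Chr dm} {m m' : MF}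
  {lg : V × V → V} {f : V → V}

open SC in
/-- Rays go to rays. -/
theorem rays (rp : RP g Γ Φ) (ok : m'.OK) (hj : m'.Jac) (lk : Lk h C' Ψ m') (hd : m'.Had lg)
    (hl : ∀ y z, ‖lg (y, z)‖ = dd h y z) (mn : MinP g Φ)
    (hf : ∀ x y, dd h (f x) (f y) = dd g x y) (p : UT g) :
    ∃ q : UT h, q.1.1 = f p.1.1 ∧ ∀ t, 0 ≤ t → (Ψ t q).1.1 = f (Φ t p).1.1 := by
  let b := fun t => lg (f p.1.1, f (Φ t p).1.1)
  have n : ∀ t, 0 ≤ t → ‖b t‖ = t := fun t ht => by
    have := mn p 0 t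
    rw [rp.flow.zero, zero_sub, abs_neg, abs_of_nonneg ht] at this
    exact (hl _ _).trans ((hf _ _).trans this)
  have r : ∀ t, 0 ≤ t → b t = t • b 1 := fun t ht => by
    refine ray ht (n t ht) (n 1 zero_le_one) ((hd.hinge (f p.1.1) _ _).trans_eq ?_)
    rw [hd.ex, hd.ex, hl, hf, mn]
  obtain ⟨q, hq⟩ := exists_dn ok lk.orth (z := (f p.1.1, b 1))
    (norm_ne_zero_iff.1 (by rw [n 1 zero_le_one]; exact one_ne_zero))
  have q1 : q.1.1 = f p.1.1 := (congrArg Prod.fst hq).symm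
  have q2 : b 1 = m'.S q.1.1 q.1.2 := by
    have := congrArg Prod.snd hq
    simpa only [dn, n 1 zero_le_one, one_smul] using this
  refine ⟨q, q1, fun t ht => ?_⟩
  have e : (f p.1.1, b t) = dn m' t q := Prod.ext q1.symm (by rw [r t ht, q2]; rfl)
  have := hd.ex (f p.1.1) (f (Φ t p).1.1)
  rw [show (f p.1.1, lg (f p.1.1, f (Φ t p).1.1)) = _ from e, Z_dn hj lk, mul_one] at this
  exact this

/-- Angles are preserved. -/
theorem inn (rp : RP g Γ Φ) (r' : RP h Λ Ψ) (hf : ∀ x y, dd h (f x) (f y) = dd g x y)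
    {p q : UT g} {p' q' : UT h} (e : p.1.1 = q.1.1) (e' : p'.1.1 = q'.1.1)
    (hp : ∀ t, 0 ≤ t → (Ψ t p').1.1 = f (Φ t p).1.1)
    (hq : ∀ t, 0 ≤ t → (Ψ t q').1.1 = f (Φ t q).1.1) :
    h p'.1.1 p'.1.2 q'.1.2 = g p.1.1 p.1.2 q.1.2 := by
  have k : ∀ (g : Met dm), Riem g → ∀ p q : UT g, p.1.1 = q.1.1 →
      0 ≤ g p.1.1 (q.1.2 - p.1.2) (q.1.2 - p.1.2) ∧
      g p.1.1 (q.1.2 - p.1.2) (q.1.2 - p.1.2) = 2 - 2 * g p.1.1 p.1.2 q.1.2 := by
    intro g r p q e
    refine ⟨?_, ?_⟩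
    · rcases eq_or_ne (q.1.2 - p.1.2) 0 with z | z
      · simp [z]
      · exact (r.pos _ _ z).le
    · have := q.2
      rw [← e] at this
      simp only [map_sub, sub_apply, this, p.2, r.symm _ q.1.2 p.1.2]
      ring
  have a := (CZE.ang r' p' q' e').congr' (f₂ := fun t => t⁻¹ * dd g (Φ t p).1.1 (Φ t q).1.1) (by
    filter_upwards [self_mem_nhdsWithin] with t ht
    rw [hp t (le_of_lt ht), hq t (le_of_lt ht), hf])
  have b := (Real.sqrt_inj (k h r'.riem _ _ e').1 (k g rp.riem p q e).1).1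
    (tendsto_nhds_unique a (CZE.ang rp p q e))
  rw [(k h r'.riem _ _ e').2, (k g rp.riem p q e).2] at b
  linarith

end Mys

/-- The theorem of Myers and Steenrod in the form needed. -/
def SMYS : Prop := On2 fun g h C C' Γ _ _ _ _ _ Φ Ψ ρ _ => ∀ (m m' : MF) lg (f : V → V), m.OK →
  m.Jac → m'.OK → m'.Jac → Lk g C Φ m → Lk h C' Ψ m' → m'.Had lg →
  (∀ y z, ‖lg (y, z)‖ = dd h y z) → MinP g Φ → (∀ x y, dd h (f x) (f y) = dd g x y) →
  (∀ (γ : Γ) x, f (γ • x) = ρ γ • f x) → Iso g h ρ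

open SC En0 in
theorem sMYS : SMYS := by
  intro g h C C' Γ Λ _ _ _ _ Φ Ψ ρ _ qg qh _ _ _ _ _ m m' lg f ok hj ok' hj' lk lk' hd hl mn hf eq
  have ex : ∀ x a : V, ∃ p : UT g, (x, a) = dn m ‖a‖ p := fun x a => by
    rcases eq_or_ne a 0 with rfl | ha
    · obtain ⟨p, hp, -⟩ := qg.rp.hr x x
      exact ⟨p, by simp [dn, hp]⟩
    · exact exists_dn ok lk.orth (z := (x, a)) ha
  choose P hP using ex
  choose F F1 F2 using Mys.rays qg.rp ok' hj' lk' hd hl mn hf
  have P1 : ∀ x a, (P x a).1.1 = x := fun x a => (congrArg Prod.fst (hP x a)).symm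
  have key : ∀ x, (ContDiffAt ℝ 1 f x ∧
      ∀ u v, h (f x) (fderiv ℝ f x u) (fderiv ℝ f x v) = g x u v) ∧
      Function.Surjective f := fun x => by
    have fx : ∀ a, (F (P x a)).1.1 = f x := fun a => by rw [F1, P1]
    have inn : ∀ a b, ⟪(dn m' ‖a‖ (F (P x a))).2, (dn m' ‖b‖ (F (P x b))).2⟫ = ⟪a, b⟫ := by
      intro a b
      have := Mys.inn qg.rp qh.rp hf (p := P x a) (q := P x b) (by rw [P1, P1])
        (by rw [fx, fx]) (F2 _) (F2 _)
      have e1 : a = _ := congrArg Prod.snd (hP x a)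
      have e2 : b = _ := congrArg Prod.snd (hP x b)
      rw [fx, P1] at this
      conv_rhs => rw [e1, e2]
      simp only [dn, real_inner_smul_left, real_inner_smul_right, fx, P1]
      rw [← lk'.orth (f x), ← lk.orth x, ok.RS, ok.RS, ok'.RS, ok'.RS, this]
    obtain ⟨A, hA⟩ := lin inn
    have e : ∀ a, f (m.Z 1 (x, a)).1 = (m'.Z 1 (f x, A a)).1 := fun a => by
      have : (f x, A a) = dn m' ‖a‖ (F (P x a)) := Prod.ext (fx a).symm (hA a)
      rw [this, hP x a, Z_dn hj lk, Z_dn hj' lk', mul_one]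
      exact (F2 _ _ (norm_nonneg a)).symm
    let R : V ≃L[ℝ] V := .equivOfInverse (m.R x) (m.S x) (ok.SR x) (ok.RS x)
    have d : HasFDerivAt (fun b => (m.Z 1 (x, b)).1) (R : V →L[ℝ] V) 0 := d_ex ok hj x
    have c := (c_ex ok x).contDiffAt (x := 0)
    have i1 := c.to_localInverse d one_ne_zero
    have i2 := (c.hasStrictFDerivAt' d one_ne_zero).eventually_right_inverse
    rw [ex0 ok hj] at i1 i2
    have cf : ContDiffAt ℝ 1 f x :=
      (((c_ex ok' (f x)).comp A.contDiff).contDiffAt.comp x i1).congr_of_eventuallyEq (by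
        filter_upwards [i2] with y hy
        exact (congrArg f hy).symm.trans (e _))
    have d0 : HasFDerivAt f (fderiv ℝ f x) (m.Z 1 (x, 0)).1 := by
      rw [ex0 ok hj]
      exact (cf.differentiableAt one_ne_zero).hasFDerivAt
    have d1 := d0.comp 0 (d_ex ok hj x)
    have d2 := HasFDerivAt.comp 0 ((map_zero A).symm ▸ d_ex ok' hj' (f x)) A.hasFDerivAt
    have d3 : ∀ a, fderiv ℝ f x (m.R x a) = m'.R (f x) (A a) := fun a =>
      DFunLike.congr_fun (d1.unique (d2.congr_of_eventuallyEq (.of_forall e))) a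
    refine ⟨⟨cf, fun u v => ?_⟩, fun y => ?_⟩
    · rw [← ok.RS x u, ← ok.RS x v, d3, d3, lk'.orth, lk.orth, hA, hA, inn]
    · have inj : Function.Injective (A : V →ₗ[ℝ] V) :=
        (injective_iff_map_eq_zero _).2 fun a ha => by
          have := inn a a
          rw [← hA, show A a = 0 from ha, inner_zero_left] at this
          exact inner_self_eq_zero.1 this.symm
      obtain ⟨a, ha⟩ := LinearMap.surjective_of_injective inj (lg (f x, y))
      exact ⟨_, (e a).trans (by rw [show A a = _ from ha, hd.ex])⟩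
  refine ⟨f, ⟨fun x y e => ?_, (key 0).2⟩, contDiff_iff_contDiffAt.2 fun x => (key x).1.1,
    fun x => (key x).1.2, eq⟩
  have := hf x y
  rw [e, qh.rp.db.refl] at this
  obtain ⟨p, h1, h2⟩ := qg.rp.hr x y
  rwa [← this, qg.rp.flow.zero, h1] at h2

end

end Pool.Agent.MP_3ee8cb_gt.DN
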